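import Mathlib
import Pool.Agent.P.MP_26ce3f_co.PS.Two

namespace Pool.Agent.P.MP_26ce3f_co.Old.FewBlocks

open Pool.Agent.P.MP_26ce3f_co

/-- Every word over `k` letters has the same subword counts of degree at most two as a word made
of at most `2 k² (⌊log₂ |w|⌋ + 1)` blocks of equal letters. -/
theorem result (k : ℕ) (w : List (Fin k)) : ∃ l : List (Fin k × ℕ),
    l.length ≤ 2 * k ^ 2 * Nat.size w.length ∧ ∀ u : List (Fin k), u.length ≤ 2 →
      occ (l.flatMap fun p => List.replicate p.2 p.1) u = occ w u :=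
  few_blocks_size k w

end Pool.Agent.P.MP_26ce3f_co.Old.FewBlocks
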